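import Mathlib

/-!
# MP_d2cf4a_al: part (c) fails for one-sided tridiagonal pairs
-/

set_option autoImplicit false

namespace Pool.Agent.Results.MP_d2cf4a_al.UnequalDims

open Module Matrix

/-- The conditions 1-4: `θ` lists the distinct eigenvalues of `A` and `θs` those of `B = A^*`, in
the fixed orderings; `A` and `B` are diagonalizable; `B V_i ⊆ V_0 + ⋯ + V_{i+1}` and
`A V^*_i ⊆ V^*_0 + ⋯ + V^*_{i+1}`, where `V_i`, `V^*_i` are the eigenspaces; and the only subspaces
invariant under `A` and `B` are `0` and `V`. -/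
structure HessenbergPair {K V : Type*} [Field K] [AddCommGroup V] [Module K V] (d δ : ℕ)
    (A B : Module.End K V) (θ : Fin (d + 1) → K) (θs : Fin (δ + 1) → K) : Prop where
  inj : Function.Injective θ
  injs : Function.Injective θs
  ne : ∀ i, End.eigenspace A (θ i) ≠ ⊥
  nes : ∀ i, End.eigenspace B (θs i) ≠ ⊥
  top : ⨆ i, End.eigenspace A (θ i) = ⊤
  tops : ⨆ i, End.eigenspace B (θs i) = ⊤
  hess : ∀ i, (End.eigenspace A (θ i)).map B ≤
    ⨆ j : {j : Fin (d + 1) // (j : ℕ) ≤ i + 1}, End.eigenspace A (θ j)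
  hesss : ∀ i, (End.eigenspace B (θs i)).map A ≤
    ⨆ j : {j : Fin (δ + 1) // (j : ℕ) ≤ i + 1}, End.eigenspace B (θs j)
  irr : ∀ W : Submodule K V, W.map A ≤ W → W.map B ≤ W → W = ⊥ ∨ W = ⊤

/-- `A` -/
def MA : Matrix (Fin 5) (Fin 5) ℚ :=
  !![2, 0, 0, 0, 0; 1, 1, 0, 0, 0; 0, 0, 1, 0, 0; 0, 1, 0, 0, 0; 0, 0, 1, 0, 0]

/-- `A^*` -/
def MB : Matrix (Fin 5) (Fin 5) ℚ :=
  !![0, 1, 0, 0, 0; 0, 1, 0, 0, 1; 0, 0, 1, 1, 0; 0, 0, 0, 2, 0; 0, 0, 0, 0, 2]

/-- the linear map `A` -/
def A : Module.End ℚ (Fin 5 → ℚ) := Matrix.toLin' MA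

/-- the linear map `A^*` -/
def B : Module.End ℚ (Fin 5 → ℚ) := Matrix.toLin' MB

/-- the eigenvalues -/
def th : Fin (2 + 1) → ℚ := ![0, 1, 2]

theorem A_apply (x : Fin 5 → ℚ) : A x = ![2 * x 0, x 0 + x 1, x 2, x 1, x 2] := by
  funext i
  fin_cases i <;> simp [A, MA, Matrix.toLin'_apply, Matrix.mulVec, dotProduct, Fin.sum_univ_five]

theorem B_apply (x : Fin 5 → ℚ) : B x = ![x 1, x 1 + x 4, x 2 + x 3, 2 * x 3, 2 * x 4] := by
  funext i
  fin_cases i <;> simp [B, MB, Matrix.toLin'_apply, Matrix.mulVec, dotProduct, Fin.sum_univ_five]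

theorem memA (x : Fin 5 → ℚ) (t : ℚ) : x ∈ End.eigenspace A t ↔
    2 * x 0 = t * x 0 ∧ x 0 + x 1 = t * x 1 ∧ x 2 = t * x 2 ∧ x 1 = t * x 3 ∧ x 2 = t * x 4 := by
  rw [End.mem_eigenspace_iff, A_apply, funext_iff, Fin.forall_fin_succ, Fin.forall_fin_succ,
    Fin.forall_fin_succ, Fin.forall_fin_succ, Fin.forall_fin_succ]
  simp

theorem memB (x : Fin 5 → ℚ) (t : ℚ) : x ∈ End.eigenspace B t ↔
    x 1 = t * x 0 ∧ x 1 + x 4 = t * x 1 ∧ x 2 + x 3 = t * x 2 ∧ 2 * x 3 = t * x 3 ∧
      2 * x 4 = t * x 4 := by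
  rw [End.mem_eigenspace_iff, B_apply, funext_iff, Fin.forall_fin_succ, Fin.forall_fin_succ,
    Fin.forall_fin_succ, Fin.forall_fin_succ, Fin.forall_fin_succ]
  simp

theorem decA (x : Fin 5 → ℚ) : ∃ u ∈ End.eigenspace A (th 0), ∃ v ∈ End.eigenspace A (th 1),
    ∃ w ∈ End.eigenspace A (th 2), x = u + v + w ∧ (x 0 = 0 → w = 0) := by
  refine ⟨![0, 0, 0, x 3 - x 1 + x 0 / 2, x 4 - x 2], ?_, ![0, x 1 - x 0, x 2, x 1 - x 0, x 2], ?_,
    ![x 0, x 0, 0, x 0 / 2, 0], ?_, ?_, ?_⟩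
  · rw [memA]; simp [th]
  · rw [memA]; simp [th]
  · rw [memA]; simp [th]; constructor <;> ring
  · funext i
    fin_cases i <;> simp <;> ring
  · intro h
    funext i
    fin_cases i <;> simp [h]

theorem decB (x : Fin 5 → ℚ) : ∃ u ∈ End.eigenspace B (th 0), ∃ v ∈ End.eigenspace B (th 1),
    ∃ w ∈ End.eigenspace B (th 2), x = u + v + w ∧ (x 4 = 0 → x 3 = 0 → w = 0) := by
  refine ⟨![x 0 - x 1 + x 4 / 2, 0, 0, 0, 0], ?_, ![x 1 - x 4, x 1 - x 4, x 2 - x 3, 0, 0], ?_,
    ![x 4 / 2, x 4, x 3, x 3, x 4], ?_, ?_, ?_⟩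
  · rw [memB]; simp [th]
  · rw [memB]; simp [th]
  · rw [memB]; simp [th]
    refine ⟨?_, ?_, ?_⟩ <;> ring
  · funext i
    fin_cases i <;> simp <;> ring
  · intro h h'
    funext i
    fin_cases i <;> simp [h, h']

theorem th_inj : Function.Injective th := by
  intro i j h
  fin_cases i <;> fin_cases j <;> simp [th] at h ⊢

theorem irr (W : Submodule ℚ (Fin 5 → ℚ)) (hA : W.map A ≤ W) (hB : W.map B ≤ W) :
    W = ⊥ ∨ W = ⊤ := by
  have hA' : ∀ x ∈ W, A x ∈ W := fun x hx => hA ⟨x, hx, rfl⟩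
  have hB' : ∀ x ∈ W, B x ∈ W := fun x hx => hB ⟨x, hx, rfl⟩
  by_cases he : (![1, 0, 0, 0, 0] : Fin 5 → ℚ) ∈ W
  · right
    have h1 : (![0, 1, 0, 0, 0] : Fin 5 → ℚ) ∈ W := by
      have := W.sub_mem (hA' _ he) (W.smul_mem 2 he)
      rw [A_apply] at this
      convert this using 1
      funext i
      fin_cases i <;> simp
    have h3 : (![0, 0, 0, 1, 0] : Fin 5 → ℚ) ∈ W := by
      have := W.sub_mem (hA' _ h1) h1
      rw [A_apply] at this
      convert this using 1
      funext i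
      fin_cases i <;> simp
    have h2 : (![0, 0, 1, 0, 0] : Fin 5 → ℚ) ∈ W := by
      have := W.sub_mem (hB' _ h3) (W.smul_mem 2 h3)
      rw [B_apply] at this
      convert this using 1
      funext i
      fin_cases i <;> simp
    have h4 : (![0, 0, 0, 0, 1] : Fin 5 → ℚ) ∈ W := by
      have := W.sub_mem (hA' _ h2) h2
      rw [A_apply] at this
      convert this using 1
      funext i
      fin_cases i <;> simp
    rw [Submodule.eq_top_iff']
    intro x
    have : x = x 0 • ![1, 0, 0, 0, 0] + x 1 • ![0, 1, 0, 0, 0] + x 2 • ![0, 0, 1, 0, 0] +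
        x 3 • ![0, 0, 0, 1, 0] + x 4 • ![0, 0, 0, 0, 1] := by
      funext i
      fin_cases i <;> simp
    rw [this]
    exact W.add_mem (W.add_mem (W.add_mem (W.add_mem (W.smul_mem _ he) (W.smul_mem _ h1))
      (W.smul_mem _ h2)) (W.smul_mem _ h3)) (W.smul_mem _ h4)
  · left
    have hc : ∀ x ∈ W, 2 * x 0 - 2 * x 1 + x 4 = 0 := by
      intro x hx
      by_contra hne
      apply he
      have h1 := hB' _ hx
      have h2 := hB' _ h1
      have h5 : B (B x) - (3 : ℚ) • B x + (2 : ℚ) • x =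
          (2 * x 0 - 2 * x 1 + x 4) • ![1, 0, 0, 0, 0] := by
        funext i
        simp only [Pi.add_apply, Pi.sub_apply, Pi.smul_apply, smul_eq_mul, B_apply]
        fin_cases i <;> simp <;> ring
      have h6 := W.smul_mem (2 * x 0 - 2 * x 1 + x 4)⁻¹
        (W.add_mem (W.sub_mem h2 (W.smul_mem (3 : ℚ) h1)) (W.smul_mem (2 : ℚ) hx))
      rw [h5, smul_smul, inv_mul_cancel₀ hne, one_smul] at h6
      exact h6
    rw [Submodule.eq_bot_iff]
    intro x hx
    have c1 := hc _ hx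
    have c2 := hc _ (hA' _ hx)
    have c3 := hc _ (hA' _ (hB' _ hx))
    have c4 := hc _ (hA' _ (hB' _ (hA' _ hx)))
    have c5 := hc _ (hA' _ (hB' _ (hA' _ (hA' _ hx))))
    simp only [A_apply, B_apply] at c2 c3 c4 c5
    simp at c2 c3 c4 c5
    have e0 : x 0 = 0 := by linarith
    have e1 : x 1 = 0 := by linarith
    have e2 : x 2 = 0 := by linarith
    have e4 : x 4 = 0 := by linarith
    have e3 : x 3 = 0 := by linarith
    funext i
    fin_cases i <;> simp [e0, e1, e2, e3, e4]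

theorem pair : HessenbergPair 2 2 A B th th where
  inj := th_inj
  injs := th_inj
  ne i := by
    have : ∃ x ∈ End.eigenspace A (th i), x ≠ 0 := by
      fin_cases i
      · refine ⟨![0, 0, 0, 0, 1], by rw [memA]; simp [th], fun h => ?_⟩
        simpa using congrFun h 4
      · refine ⟨![0, 1, 0, 1, 0], by rw [memA]; simp [th], fun h => ?_⟩
        simpa using congrFun h 1
      · refine ⟨![2, 2, 0, 1, 0], by rw [memA]; simp [th]; norm_num, fun h => ?_⟩
        simpa using congrFun h 0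
    obtain ⟨x, hx, hx0⟩ := this
    exact fun h => hx0 (by rw [h] at hx; simpa using hx)
  nes i := by
    have : ∃ x ∈ End.eigenspace B (th i), x ≠ 0 := by
      fin_cases i
      · refine ⟨![1, 0, 0, 0, 0], by rw [memB]; simp [th], fun h => ?_⟩
        simpa using congrFun h 0
      · refine ⟨![1, 1, 0, 0, 0], by rw [memB]; simp [th], fun h => ?_⟩
        simpa using congrFun h 1
      · refine ⟨![0, 0, 1, 1, 0], by rw [memB]; simp [th]; norm_num, fun h => ?_⟩
        simpa using congrFun h 2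
    obtain ⟨x, hx, hx0⟩ := this
    exact fun h => hx0 (by rw [h] at hx; simpa using hx)
  top := by
    rw [Submodule.eq_top_iff']
    intro x
    obtain ⟨u, hu, v, hv, w, hw, rfl, -⟩ := decA x
    exact Submodule.add_mem _ (Submodule.add_mem _
      (Submodule.mem_iSup_of_mem (0 : Fin 3) hu) (Submodule.mem_iSup_of_mem (1 : Fin 3) hv))
      (Submodule.mem_iSup_of_mem (2 : Fin 3) hw)
  tops := by
    rw [Submodule.eq_top_iff']
    intro x
    obtain ⟨u, hu, v, hv, w, hw, rfl, -⟩ := decB x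
    exact Submodule.add_mem _ (Submodule.add_mem _
      (Submodule.mem_iSup_of_mem (0 : Fin 3) hu) (Submodule.mem_iSup_of_mem (1 : Fin 3) hv))
      (Submodule.mem_iSup_of_mem (2 : Fin 3) hw)
  hess i := by
    rintro _ ⟨x, hx, rfl⟩
    obtain ⟨u, hu, v, hv, w, hw, hsum, h0⟩ := decA (B x)
    rw [hsum]
    refine Submodule.add_mem _ (Submodule.add_mem _ ?_ ?_) ?_
    · exact Submodule.mem_iSup_of_mem ⟨(0 : Fin 3), by simp⟩ hu
    · exact Submodule.mem_iSup_of_mem ⟨(1 : Fin 3), by simp⟩ hv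
    · by_cases hi : i = 0
      · subst hi
        have h1 := (memA x _).1 hx
        have h2 : w = 0 := h0 (by
          rw [B_apply]
          simp [th] at h1
          simp [h1])
        rw [h2]
        exact Submodule.zero_mem _
      · have : (1 : ℕ) ≤ i := Nat.one_le_iff_ne_zero.2 fun h => hi (Fin.ext h)
        exact Submodule.mem_iSup_of_mem ⟨(2 : Fin 3), by simp; omega⟩ hw
  hesss i := by
    rintro _ ⟨x, hx, rfl⟩
    obtain ⟨u, hu, v, hv, w, hw, hsum, h0⟩ := decB (A x)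
    rw [hsum]
    refine Submodule.add_mem _ (Submodule.add_mem _ ?_ ?_) ?_
    · exact Submodule.mem_iSup_of_mem ⟨(0 : Fin 3), by simp⟩ hu
    · exact Submodule.mem_iSup_of_mem ⟨(1 : Fin 3), by simp⟩ hv
    · by_cases hi : i = 0
      · subst hi
        have h1 := (memB x _).1 hx
        have h2 : w = 0 := h0 (by
          rw [A_apply]
          simp [th] at h1
          simp
          linarith [h1.1, h1.2.1, h1.2.2.1, h1.2.2.2.1]) (by
          rw [A_apply]
          simp [th] at h1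
          simp [h1])
        rw [h2]
        exact Submodule.zero_mem _
      · have : (1 : ℕ) ≤ i := Nat.one_le_iff_ne_zero.2 fun h => hi (Fin.ext h)
        exact Submodule.mem_iSup_of_mem ⟨(2 : Fin 3), by simp; omega⟩ hw
  irr := irr

/-- There is a pair `A, A^*` of maps on `ℚ⁵` satisfying the conditions 1-4 with `d = δ = 2` for
which part (c) fails: `dim V_0 = 2` and `dim V^*_0 = 1`. -/
theorem result : ∃ (A B : Module.End ℚ (Fin 5 → ℚ)) (θ θs : Fin (2 + 1) → ℚ),
    HessenbergPair 2 2 A B θ θs ∧ finrank ℚ (End.eigenspace A (θ 0)) = 2 ∧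
      finrank ℚ (End.eigenspace B (θs 0)) = 1 := by
  refine ⟨A, B, th, th, pair, ?_, ?_⟩
  · have h1 : End.eigenspace A (th 0) =
        Submodule.span ℚ (Set.range ![(![0, 0, 0, 1, 0] : Fin 5 → ℚ), ![0, 0, 0, 0, 1]]) := by
      ext x
      rw [memA, Submodule.mem_span_range_iff_exists_fun]
      constructor
      · intro h
        simp [th] at h
        refine ⟨![x 3, x 4], ?_⟩
        funext i
        fin_cases i <;> simp [h]
      · rintro ⟨c, rfl⟩
        simp [th]
    rw [h1, finrank_span_eq_card, Fintype.card_fin]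
    rw [LinearIndependent.pair_iff]
    intro s t hst
    have e3 := congrFun hst 3
    have e4 := congrFun hst 4
    simp at e3 e4
    exact ⟨e3, e4⟩
  · have h1 : End.eigenspace B (th 0) = Submodule.span ℚ {(![1, 0, 0, 0, 0] : Fin 5 → ℚ)} := by
      ext x
      rw [memB, Submodule.mem_span_singleton]
      constructor
      · intro h
        simp [th] at h
        obtain ⟨e1, e4, e23, e3⟩ : x 1 = 0 ∧ x 1 + x 4 = 0 ∧ x 2 + x 3 = 0 ∧ x 3 = 0 :=
          ⟨h.1, h.2.1, h.2.2.1, h.2.2.2.1⟩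
        refine ⟨x 0, ?_⟩
        funext i
        fin_cases i
        · simp
        · simp [e1]
        · simp; linarith
        · simp [e3]
        · simp; linarith
      · rintro ⟨c, rfl⟩
        simp [th]
    rw [h1, finrank_span_singleton]
    intro h
    simpa using congrFun h 0

end Pool.Agent.Results.MP_d2cf4a_al.UnequalDims
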